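import Pool.Agent.P.MP_bfbd14_co.Defs
import Pool.Agent.P.MP_bfbd14_co.Path

set_option autoImplicit false

namespace Pool.Agent.Results.MP_bfbd14_co.PNUnique

open Pool.Agent.P.MP_bfbd14_co

/-- The dodecahedron is PN-unique: any two realizations are joined by a finite chain of
realizations in which consecutive members differ by a projective or a normal transformation. -/
theorem result (P Q : Set (Fin 3 → ℝ)) (hP : IsDodecahedron P) (hQ : IsDodecahedron Q) :
    ∃ (s : ℕ) (R : ℕ → Set (Fin 3 → ℝ)), R 0 = P ∧ R s = Q ∧ (∀ i ≤ s, IsDodecahedron (R i)) ∧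
      ∀ i < s, ProjectiveStep (R i) (R (i + 1)) ∨ NormalStep (R i) (R (i + 1)) := by
  have h := rel_of_isDodecahedron hP hQ
  induction h with
  | refl => exact ⟨0, fun _ => P, rfl, rfl, fun _ _ => hP, fun i hi => absurd hi (by omega)⟩
  | @tail Q' Q'' _ hst ih =>
    obtain ⟨s, R, h0, hs, h1, h2⟩ := ih hst.1
    refine ⟨s + 1, fun i => if i ≤ s then R i else Q'', by simp [h0], by simp, fun i _ => ?_,
      fun i hi => ?_⟩
    · by_cases hi : i ≤ s
      · simpa [hi] using h1 i hi
      · simpa [hi] using hst.2.1
    · by_cases hi' : i + 1 ≤ s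
      · simpa [hi', show i ≤ s by omega] using h2 i (by omega)
      · have : i = s := by omega
        subst this
        simpa [hs] using hst.2.2

end Pool.Agent.Results.MP_bfbd14_co.PNUnique
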